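import Pool.Agent.H7.LP.Targets

/-!
# Board lpg_modules, row EST
-/

set_option autoImplicit false

open Set Filter Topology

namespace Pool.Agent.H99.LP

open Pool.Agent.H7.LP Pool.Agent.H93.CP

private theorem est_ms {G : Type} [MeasurableSpace G] {F : St → ℕ → (ℕ × ℕ) × G}
    (hF : ∀ s, Measurable fun w => F w s) (i : ℕ × ℕ) (s n : ℕ) :
    MeasurableSet {w : St | w ((F w s).1, i, n) = true} := by
  have h : {w : St | w ((F w s).1, i, n) = true} =
      ⋃ j : ℕ × ℕ, {w : St | (F w s).1 = j} ∩ {w : St | w (j, i, n) = true} := by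
    ext w
    simp only [mem_setOf_eq, mem_iUnion, mem_inter_iff]
    exact ⟨fun hw => ⟨_, rfl, hw⟩, fun ⟨j, hj, hw⟩ => by rw [hj]; exact hw⟩
  rw [h]
  refine MeasurableSet.iUnion fun j => MeasurableSet.inter ?_ ?_
  · exact (hF s).fst (measurableSet_singleton j)
  · exact (measurable_pi_apply (j, i, n) : Measurable fun w : St => w (j, i, n))
      (measurableSet_singleton true)

/-- Row EST. -/
theorem pf_EST : T_EST := by
  classical
  intro G X _ _ _ _ _ _ _ L M _ Y S F hF
  let p : ℕ × ℕ → ℕ → St → Prop := fun i t w =>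
    w ((F w (Nat.unpair t).1).1, i, (Nat.unpair t).2) = true ∨
      ∀ t', ¬ w ((F w (Nat.unpair t').1).1, i, (Nat.unpair t').2) = true
  have hp : ∀ i w, ∃ t, p i t w := by
    intro i w
    by_cases h : ∃ t, w ((F w (Nat.unpair t).1).1, i, (Nat.unpair t).2) = true
    · obtain ⟨t, ht⟩ := h
      exact ⟨t, Or.inl ht⟩
    · exact ⟨0, Or.inr (not_exists.1 h)⟩
  let f : ℕ → St → G := fun t w => (S.gm (Nat.unpair t).2)⁻¹ * (F w (Nat.unpair t).1).2
  have hf : ∀ t, Measurable (f t) := fun t =>
    (hF (Nat.unpair t).1).snd.const_mul ((S.gm (Nat.unpair t).2)⁻¹)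
  have hpm : ∀ i t, MeasurableSet {w | p i t w} := by
    intro i t
    have h : {w | p i t w} = {w : St | w ((F w (Nat.unpair t).1).1, i, (Nat.unpair t).2) = true} ∪
        ⋂ t', {w : St | w ((F w (Nat.unpair t').1).1, i, (Nat.unpair t').2) = true}ᶜ := by
      ext w
      simp only [p, mem_setOf_eq, mem_union, mem_iInter, mem_compl_iff]
    rw [h]
    exact (est_ms hF i _ _).union (MeasurableSet.iInter fun t' => (est_ms hF i _ _).compl)
  refine ⟨fun w i => f (Nat.find (hp i w)) w, fun i => ?_, fun w i hw => ?_⟩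
  · exact Measurable.find hf (hpm i) (hp i)
  · obtain ⟨s, n, hsn⟩ := hw
    have h := Nat.find_spec (hp i w)
    rcases h with h | h
    · exact ⟨_, _, h, rfl⟩
    · exact absurd hsn (by simpa using h (Nat.pair s n))

end Pool.Agent.H99.LP
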