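import Pool.Agent.H7.LP.Targets

/-!
# Board lpg_modules, row STR
-/

set_option autoImplicit false

open Set Filter Topology

namespace Pool.Agent.H99.LP

open Pool.Agent.H7.LP Pool.Agent.H93.CP

/-- Row STR. -/
theorem pf_STR (h1 : T_PRS) (h2 : T_STE) : T_STR := by
  intro G X _ _ _ _ L M _ Y S F hF x e w he hw
  have hex : ∃ q, pres w q := by
    obtain ⟨q, g, hqg⟩ := S.ex x
    exact ⟨q, (h1 G X L M Y S x e w he hw q).2 ⟨g, hqg⟩⟩
  have step : ∀ s, pres w (F w s).1.1 →
      S.Step w s (F w s).1 (F w s).2 (F w (s + 1)).1 (F w (s + 1)).2 := fun s hs =>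
    hF.step w s (h2 G X L M Y S x e w he hw s (F w s).1 (F w s).2 hs)
  have key : ∀ s, pres w (F w s).1.1 := by
    intro s
    induction s with
    | zero => exact (hF.zero w hex).1
    | succ s ih =>
      obtain ⟨n, m, hn, -⟩ := (step s ih).quo
      exact (h1 G X L M Y S x e w he hw _).2 ((hw _ _ _).1 hn).1
  exact ⟨(hF.zero w hex).2, key, fun s => step s (key s)⟩

end Pool.Agent.H99.LP
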